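import Mathlib
import Pool.Agent.X238.Qdl.Abs

/-!
# MP_4dd1f4_al: no doubly transitive quandle homomorphism has a fiber with six elements

Quandles are Mathlib's `Quandle`: `x ◃ y` is `s_x(y)`.
-/

namespace Pool.Agent.Results.MP_4dd1f4_al.NoSixFiber

open Pool.Agent.X238.Qdl

open Quandles

universe u v

/-- The inner automorphism group: the subgroup of `Sym(P)` generated by all `s_x`. -/
def Inn (P : Type u) [Quandle P] : Subgroup (Equiv.Perm P) :=
  Subgroup.closure (Set.range (Rack.act' : P → Equiv.Perm P))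

/-- The relative inner automorphism group `Inn(f)`: the inner automorphisms of `P`
mapping every fiber of `f` to itself. -/
def InnRel {P : Type u} {Q : Type v} [Quandle P] [Quandle Q] (f : P →◃ Q) :
    Subgroup (Equiv.Perm P) where
  carrier := {g | g ∈ Inn P ∧ ∀ y, f (g y) = f y}
  mul_mem' := by
    rintro a b ⟨ha, ha'⟩ ⟨hb, hb'⟩
    exact ⟨(Inn P).mul_mem ha hb, fun y => by rw [Equiv.Perm.mul_apply, ha', hb']⟩
  one_mem' := ⟨(Inn P).one_mem, fun _ => rfl⟩
  inv_mem' := by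
    rintro a ⟨ha, ha'⟩
    refine ⟨(Inn P).inv_mem ha, fun y => ?_⟩
    have h := ha' (a⁻¹ y)
    rw [← h]
    congr 1
    exact Equiv.apply_symm_apply a y

/-- A quandle homomorphism is doubly transitive if it is surjective and `Inn(f)` acts
on each fiber transitively on the ordered pairs of distinct points. -/
def DoublyTransitive {P : Type u} {Q : Type v} [Quandle P] [Quandle Q] (f : P →◃ Q) : Prop :=
  Function.Surjective f ∧
    ∀ q : Q, ∀ a b c d : P, f a = q → f b = q → f c = q → f d = q → a ≠ b → c ≠ d →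
      ∃ g ∈ InnRel f, g a = c ∧ g b = d

section

variable {P : Type u} {Q : Type v} [Quandle P] [Quandle Q] (f : P →◃ Q)

theorem act'_apply (x y : P) : Rack.act' x y = x ◃ y := rfl

theorem inn_desc (g : Equiv.Perm P) (hg : g ∈ Inn P) :
    ∃ g' : Equiv.Perm Q, ∀ y, f (g y) = g' (f y) := by
  induction hg using Subgroup.closure_induction with
  | mem z hz =>
    obtain ⟨x, rfl⟩ := hz
    exact ⟨Rack.act' (f x), fun y => f.map_act⟩
  | one => exact ⟨1, fun y => rfl⟩
  | mul a b _ _ ha hb =>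
    obtain ⟨a', ha'⟩ := ha
    obtain ⟨b', hb'⟩ := hb
    exact ⟨a' * b', fun y => by rw [Equiv.Perm.mul_apply, ha', hb']; rfl⟩
  | inv a _ ha =>
    obtain ⟨a', ha'⟩ := ha
    refine ⟨a'⁻¹, fun y => ?_⟩
    apply a'.injective
    have h1 : a (a⁻¹ y) = y := Equiv.apply_symm_apply a y
    have h2 : a' (a'⁻¹ (f y)) = f y := Equiv.apply_symm_apply a' (f y)
    rw [← ha', h1, h2]

theorem inn_act (g : Equiv.Perm P) (hg : g ∈ Inn P) : ∀ x y, g (x ◃ y) = g x ◃ g y := by
  induction hg using Subgroup.closure_induction with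
  | mem z hz =>
    obtain ⟨w, rfl⟩ := hz
    intro x y
    exact Shelf.self_distrib
  | one => exact fun _ _ => rfl
  | mul a b _ _ ha hb =>
    intro x y
    rw [Equiv.Perm.mul_apply, hb, ha]; rfl
  | inv a _ ha =>
    intro x y
    apply a.injective
    have h1 : ∀ z, a (a⁻¹ z) = z := fun z => Equiv.apply_symm_apply a z
    rw [ha, h1, h1, h1]

theorem innRel_conj (g : Equiv.Perm P) (hg : g ∈ Inn P) (n : Equiv.Perm P) (hn : n ∈ InnRel f) :
    g * n * g⁻¹ ∈ InnRel f := by
  refine ⟨(Inn P).mul_mem ((Inn P).mul_mem hg hn.1) ((Inn P).inv_mem hg), fun y => ?_⟩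
  obtain ⟨g', hg'⟩ := inn_desc f g hg
  have h1 : g (g⁻¹ y) = y := Equiv.apply_symm_apply g y
  rw [Equiv.Perm.mul_apply, Equiv.Perm.mul_apply, hg', hn.2, ← hg', h1]

theorem act'_mem (x : P) : (Rack.act' x : Equiv.Perm P) ∈ Inn P :=
  Subgroup.subset_closure ⟨x, rfl⟩

/-- The fiber over `q`. -/
def Fib (q : Q) : Type u := {y : P // f y = q}

instance (q : Q) : MulAction (InnRel f) (Fib f q) where
  smul n y := ⟨n.1 y.1, by rw [n.2.2, y.2]⟩
  one_smul _ := rfl
  mul_smul _ _ _ := rfl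

theorem smul_val {q : Q} (n : InnRel f) (y : Fib f q) : (n • y).1 = n.1 y.1 := rfl

theorem tt_fib (hf : DoublyTransitive f) (q : Q) : TT (InnRel f) (Fib f q) := by
  intro a b c d hab hcd
  obtain ⟨g, hg, h1, h2⟩ := hf.2 q a.1 b.1 c.1 d.1 a.2 b.2 c.2 d.2
    (fun h => hab (Subtype.ext h)) (fun h => hcd (Subtype.ext h))
  exact ⟨⟨g, hg⟩, Subtype.ext h1, Subtype.ext h2⟩

/-- Conjugation by `s_x` on `Inn(f)`. -/
def conjX (x : P) : InnRel f ≃* InnRel f where
  toFun n := ⟨Rack.act' x * n.1 * (Rack.act' x)⁻¹, innRel_conj f _ (act'_mem x) _ n.2⟩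
  invFun n := ⟨(Rack.act' x)⁻¹ * n.1 * Rack.act' x, by
    have := innRel_conj f _ ((Inn P).inv_mem (act'_mem x)) _ n.2
    rwa [inv_inv] at this⟩
  left_inv n := by apply Subtype.ext; show _ * (_ * _ * _) * _ = _; group
  right_inv n := by apply Subtype.ext; show _ * (_ * _ * _) * _ = _; group
  map_mul' a b := by
    apply Subtype.ext
    show Rack.act' x * (a.1 * b.1) * (Rack.act' x)⁻¹ =
      (Rack.act' x * a.1 * (Rack.act' x)⁻¹) * (Rack.act' x * b.1 * (Rack.act' x)⁻¹)
    group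

theorem conjX_val (x : P) (n : InnRel f) :
    (conjX f x n).1 = Rack.act' x * n.1 * (Rack.act' x)⁻¹ := rfl

theorem conjX_apply (x : P) (n : InnRel f) (y : P) : (conjX f x n).1 (x ◃ y) = x ◃ (n.1 y) := by
  rw [conjX_val, Equiv.Perm.mul_apply, Equiv.Perm.mul_apply]
  have : (Rack.act' x)⁻¹ (x ◃ y) = y := Equiv.symm_apply_apply (Rack.act' x) y
  rw [this]; rfl

/-- The map `s_x` from the fiber over `q` to the fiber over `f x ◃ q`. -/
def sMap (x : P) (q : Q) (y : Fib f q) : Fib f (f x ◃ q) := ⟨x ◃ y.1, by rw [f.map_act, y.2]⟩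

theorem sMap_inj (x : P) (q : Q) : Function.Injective (sMap f x q) := by
  intro a b h
  apply Subtype.ext
  have := congrArg Subtype.val h
  exact (Rack.act' x).injective this

theorem sMap_surj (x : P) (q : Q) : Function.Surjective (sMap f x q) := by
  intro z
  have h1 : x ◃ ((Rack.act' x)⁻¹ z.1) = z.1 := Equiv.apply_symm_apply (Rack.act' x) z.1
  refine ⟨⟨(Rack.act' x)⁻¹ z.1, ?_⟩, Subtype.ext h1⟩
  have h2 := congrArg f h1
  rw [f.map_act, z.2] at h2
  exact (Rack.act' (f x)).injective h2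

theorem card_fib_act (x : P) (q : Q) : Nat.card (Fib f (f x ◃ q)) = Nat.card (Fib f q) :=
  (Nat.card_congr (Equiv.ofBijective _ ⟨sMap_inj f x q, sMap_surj f x q⟩)).symm

/-- The permutation `s_x` of the fiber of `x`. -/
def sX (x : P) : Equiv.Perm (Fib f (f x)) where
  toFun y := ⟨x ◃ y.1, by rw [f.map_act, y.2]; exact Quandle.fix⟩
  invFun y := ⟨(Rack.act' x)⁻¹ y.1, by
    have h1 : x ◃ ((Rack.act' x)⁻¹ y.1) = y.1 := Equiv.apply_symm_apply (Rack.act' x) y.1
    have h2 := congrArg f h1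
    rw [f.map_act, y.2] at h2
    apply (Rack.act' (f x)).injective
    rw [act'_apply, h2]
    exact Quandle.fix.symm⟩
  left_inv y := Subtype.ext (Equiv.symm_apply_apply (Rack.act' x) y.1)
  right_inv y := Subtype.ext (Equiv.apply_symm_apply (Rack.act' x) y.1)

theorem claim (hf : DoublyTransitive f) (x : P) (q : Q) (h6 : Nat.card (Fib f q) = 6)
    (n : InnRel f) (y : Fib f q) : x ◃ (n.1 y.1) = n.1 (x ◃ y.1) := by
  have h := main_abs (N := InnRel f) (Ω := Fib f q) (Ω' := Fib f (f x ◃ q)) (X := Fib f (f x))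
    (tt_fib f hf q) (tt_fib f hf _) (tt_fib f hf _) h6 (by rw [card_fib_act, h6])
    (conjX f x) (sMap f x q) (sMap_inj f x q) (sMap_surj f x q)
    (fun n ω => Subtype.ext (conjX_apply f x n ω.1).symm)
    (sX f x) (fun n y => Subtype.ext (conjX_apply f x n y.1).symm)
    ⟨x, rfl⟩ (Subtype.ext Quandle.fix)
    (fun n hn => by
      have hn' : n.1 x = x := congrArg Subtype.val hn
      apply Subtype.ext
      rw [conjX_val, mul_inv_eq_iff_eq_mul]
      apply Equiv.ext
      intro y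
      rw [Equiv.Perm.mul_apply, Equiv.Perm.mul_apply, act'_apply, act'_apply,
        inn_act n.1 n.2.1, hn'])
    n y
  exact congrArg Subtype.val h

theorem claim_all (hf : DoublyTransitive f) (g : Equiv.Perm P) (hg : g ∈ Inn P) :
    (∀ y, Nat.card (Fib f (f (g y))) = Nat.card (Fib f (f y))) ∧
      ∀ y, Nat.card (Fib f (f y)) = 6 → ∀ n : InnRel f, g (n.1 y) = n.1 (g y) := by
  induction hg using Subgroup.closure_induction with
  | mem z hz =>
    obtain ⟨x, rfl⟩ := hz
    refine ⟨fun y => ?_, fun y h6 n => claim f hf x (f y) h6 n ⟨y, rfl⟩⟩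
    rw [act'_apply, f.map_act, card_fib_act]
  | one => exact ⟨fun _ => rfl, fun _ _ _ => rfl⟩
  | mul a b _ _ ha hb =>
    refine ⟨fun y => by rw [Equiv.Perm.mul_apply, ha.1, hb.1], fun y h6 n => ?_⟩
    rw [Equiv.Perm.mul_apply, Equiv.Perm.mul_apply, hb.2 y h6 n, ha.2 _ (by rw [hb.1, h6])]
  | inv a _ ha =>
    have h1 : ∀ z, a (a⁻¹ z) = z := fun z => Equiv.apply_symm_apply a z
    refine ⟨fun y => ?_, fun y h6 n => ?_⟩
    · have := ha.1 (a⁻¹ y)
      rw [h1] at this
      exact this.symm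
    · apply a.injective
      rw [h1, ha.2 _ (by rw [← ha.1, h1, h6]), h1]

theorem card_ne_six (hf : DoublyTransitive f) (q : Q) : Nat.card (Fib f q) ≠ 6 := by
  intro h6
  have hfin : Finite (Fib f q) := Nat.finite_of_card_ne_zero (by rw [h6]; norm_num)
  let eq : Fib f q ≃ Fin 6 := Finite.equivFinOfCardEq h6
  have hne : ∀ i j : Fin 6, i ≠ j → eq.symm i ≠ eq.symm j := fun i j h h' =>
    h (eq.symm.injective h')
  obtain ⟨n, h1, h2⟩ := tt_fib f hf q (eq.symm 0) (eq.symm 1) (eq.symm 0) (eq.symm 2)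
    (hne _ _ (by decide)) (hne _ _ (by decide))
  obtain ⟨n', h3, -⟩ := tt_fib f hf q (eq.symm 0) (eq.symm 1) (eq.symm 1) (eq.symm 0)
    (hne _ _ (by decide)) (hne _ _ (by decide))
  have h4 := (claim_all f hf n'.1 n'.2.1).2 (eq.symm 0).1 (by rw [(eq.symm 0).2]; exact h6) n
  have h5 : n' • (n • eq.symm 0) = n • (n' • eq.symm 0) := Subtype.ext h4
  rw [h1, h3, h2] at h5
  exact hne 1 2 (by decide) h5

end

/-- **No fiber of a doubly transitive quandle homomorphism has exactly six elements**,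
whatever its quandle structure; hence the answer to Q1 is negative, with `n = 6`. -/
theorem result :
    (∀ (P : Type u) (Q : Type v) (_ : Quandle P) (_ : Quandle Q) (f : P →◃ Q),
      DoublyTransitive f → ∀ q : Q, Nat.card {y : P // f y = q} ≠ 6) ∧
    ¬ (∀ n : ℕ, 0 < n → ∃ (P : Type u) (Q : Type v) (_ : Quandle P) (_ : Quandle Q)
      (f : P →◃ Q) (q : Q), DoublyTransitive f ∧ Nat.card {y : P // f y = q} = n ∧
        ∀ x y : P, f x = q → f y = q → x ◃ y = y) := by
  have h1 : ∀ (P : Type u) (Q : Type v) (_ : Quandle P) (_ : Quandle Q) (f : P →◃ Q),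
      DoublyTransitive f → ∀ q : Q, Nat.card {y : P // f y = q} ≠ 6 :=
    fun P Q _ _ f hf q => card_ne_six f hf q
  refine ⟨h1, ?_⟩
  intro h
  obtain ⟨P, Q, iP, iQ, f, q, hf, hq, -⟩ := h 6 (by norm_num)
  exact h1 P Q iP iQ f hf q hq

end Pool.Agent.Results.MP_4dd1f4_al.NoSixFiber
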